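import Pool.Agent.H37.CTP.Stmts
import Pool.Agent.H25.CTL.T54

/-!
# Row R5D of the board `ctp`: orders of the coefficients (after H20/CTO/P5D.lean)
-/

set_option autoImplicit false

namespace Pool.CND

open Finset Polynomial

namespace R5D

variable {k L : Type} [Field k] [Field L] [Algebra k L] (P : Place k L)

theorem ord_prod {ι : Type} (s : Finset ι) (f : ι → L) (n : ℤ)
    (h : ∀ i ∈ s, f i ≠ 0 ∧ P.ord (f i) = n) :
    ∏ i ∈ s, f i ≠ 0 ∧ P.ord (∏ i ∈ s, f i) = s.card * n := by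
  classical
  induction s using Finset.induction_on with
  | empty => exact ⟨by simp, by simp [P.ord_one]⟩
  | insert a s ha ih =>
    have h1 := ih (fun i hi => h i (Finset.mem_insert_of_mem hi))
    have h2 := h a (Finset.mem_insert_self a s)
    rw [Finset.prod_insert ha, Finset.card_insert_of_notMem ha]
    refine ⟨mul_ne_zero h2.1 h1.1, ?_⟩
    rw [P.ord_mul _ _ h2.1 h1.1, h1.2, h2.2]
    push_cast
    ring

end R5D

theorem r5d_thm (h54 : S_R54) : S_R5D := by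
  intro k F L _ _ _ _ _ _ _ f q s t X Y Yt Yp P r hchar hf hq hF hQ4 hR hO hY eA eB eC eD
  have : Fact (Nat.Prime 2) := ⟨Nat.prime_two⟩
  have : CharP L 2 := charP_of_injective_algebraMap (algebraMap k L).injective 2
  have hq2 : 2 ≤ q := by
    rw [hq]
    calc 2 = 2 ^ 1 := (pow_one 2).symm
      _ ≤ 2 ^ f := Nat.pow_le_pow_right (by omega) hf
  obtain ⟨-, hYo, -, hYt0, hYto, -⟩ := h54 k F L f q s t X Y Yt Yp P hchar hf hq hF hQ4 hR hO hY
  obtain ⟨e, he⟩ : ∃ e : ℤ, e = -P.ord t := ⟨_, rfl⟩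
  have hte : P.ord t = -e := by omega
  have he1 : 1 ≤ e := by
    have := hO.neg
    omega
  have ht : t ≠ 0 := by
    rintro rfl
    exact hR.tr isAlgebraic_zero
  obtain ⟨u, hu⟩ : ∃ u : ℤ, u = (q : ℤ) ^ s := ⟨_, rfl⟩
  obtain ⟨a, ha⟩ : ∃ a : ℤ, a = (q : ℤ) := ⟨_, rfl⟩
  have ha2 : 2 ≤ a := by rw [ha]; exact_mod_cast hq2
  have hQz : (q : ℤ) ^ (s + 1) = a * u := by rw [hu, ha, pow_succ]; ring
  obtain ⟨Q, hQ⟩ : ∃ Q : ℤ, Q = a * u := ⟨_, rfl⟩
  rw [← hQ] at hQz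
  have hQ4' : 4 ≤ Q := by
    rw [← hQz]
    exact_mod_cast hQ4
  have hq1z : ((q - 1 : ℕ) : ℤ) = a - 1 := by
    rw [ha]
    have : 1 ≤ q := by omega
    push_cast [this]
    ring
  have hQ2z : ((q ^ (s + 1) - 2 : ℕ) : ℤ) = Q - 2 := by
    have : 2 ≤ q ^ (s + 1) := by omega
    push_cast [this]
    rw [hQz]
  -- the order of `Yp`
  obtain ⟨o, ho⟩ : ∃ o : ℤ, o = P.ord Yt := ⟨_, rfl⟩
  rw [hQz, hte, ← ho] at hYto
  have hfac : ∀ c : Fin (s + 1) → F, (Yt + ∑ l, cst k F L (c l) * Y l) ≠ 0 ∧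
      P.ord (Yt + ∑ l, cst k F L (c l) * Y l) = o := by
    intro c
    have h1 := P.ord_add_of_lt (x := Yt) (y := ∑ l, cst k F L (c l) * Y l) hYt0 (by
      refine P.ge_sum _ _ _ ?_
      intro l _
      have h2 : P.ord Yt + 1 ≤ P.ord (Y l) := by
        have h3 := hYo l
        rw [hQz, hte] at h3
        rw [← ho]
        by_contra hc
        rw [not_le] at hc
        have h4 : P.ord (Y l) ≤ o := by omega
        have h5 : Q * (Q - 1) * P.ord (Y l) ≤ Q * (Q - 1) * o :=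
          mul_le_mul_of_nonneg_left h4 (mul_nonneg (by omega) (by omega))
        have h6 : Q * (Q - 1) * P.ord (Y l) = Q * ((Q - 3) * -e) := by
          rw [← h3]
          ring
        have h7 : Q * (Q - 1) * o = (Q - 1) * ((Q - 2) * -e) := by
          rw [← hYto]
          ring
        have h8 : Q * ((Q - 3) * -e) = (Q - 1) * ((Q - 2) * -e) + 2 * e := by ring
        omega
      exact P.ge_mono (P.ge_mul (P.ge_const _) (P.ge_ord (Y l))) (by omega))
    exact ⟨h1.1, by rw [h1.2, ho]⟩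
  have hYp := R5D.ord_prod P (Finset.univ : Finset (Fin (s + 1) → F))
    (fun c => Yt + ∑ l, cst k F L (c l) * Y l) o (fun c _ => hfac c)
  rw [← hY.yp] at hYp
  have hcard : ((Finset.univ : Finset (Fin (s + 1) → F)).card : ℤ) = Q := by
    rw [Finset.card_univ, Fintype.card_fun, Fintype.card_fin, ← Nat.card_eq_fintype_card, hF,
      ← hQz]
    push_cast
    ring
  rw [hcard, hYto] at hYp
  obtain ⟨hYp0, hYpo⟩ := hYp
  have hA0 : Yp ^ (q - 1) ≠ 0 := pow_ne_zero _ hYp0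
  have hAo : P.ord (Yp ^ (q - 1)) = -((a - 1) * (Q - 2) * e) := by
    rw [P.ord_pow hYp0, hq1z, hYpo]
    ring
  -- `r 0`
  have hr0 : r 0 ≠ 0 := by
    intro h0
    rw [h0, mul_zero] at eA
    exact one_ne_zero eA.symm
  have hr0o : P.ord (r 0) = (a - 1) * (Q - 2) * e := by
    have h1 := P.ord_mul _ _ hA0 hr0
    rw [eA, P.ord_one, hAo] at h1
    linarith
  -- `r 1`
  have hM1 : 1 ≤ a * (Q - 2) - 1 := by nlinarith
  have hMz : ((q * (q ^ (s + 1) - 2) - 1 : ℕ) : ℤ) = a * (Q - 2) - 1 := by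
    have h1 : 1 ≤ q * (q ^ (s + 1) - 2) := Nat.mul_pos (by omega) (by omega)
    rw [Nat.cast_sub h1, Nat.cast_mul, hQ2z, ← ha]
    norm_num
  have hmul : Yp ^ (q - 1) * r 1 ≠ 0 ∧
      P.ord (Yp ^ (q - 1) * r 1) = -((a * (Q - 2) - 1) * e) := by
    have h1 : Yp ^ (q - 1) * r 1 = t ^ (q * (q ^ (s + 1) - 2) - 1) + -(r 0 ^ q) := by
      linear_combination eB
    have h2 : P.ord (t ^ (q * (q ^ (s + 1) - 2) - 1)) = -((a * (Q - 2) - 1) * e) := by
      rw [P.ord_pow ht, hMz, hte]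
      ring
    have h3 := P.ord_add_of_lt (x := t ^ (q * (q ^ (s + 1) - 2) - 1)) (y := -(r 0 ^ q))
      (pow_ne_zero _ ht) (by
        refine Or.inr ?_
        rw [h2, P.ord_neg, P.ord_pow hr0, hr0o, ← ha]
        have h4 : 1 ≤ (a * (Q - 2) - 1) * e := by nlinarith
        have h5 : 0 ≤ a * ((a - 1) * (Q - 2) * e) := by
          have : 0 ≤ a - 1 := by omega
          have : 0 ≤ Q - 2 := by omega
          positivity
        omega)
    rw [h1]
    exact ⟨h3.1, by rw [h3.2, h2]⟩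
  have hr1 : r 1 ≠ 0 := by
    intro h0
    exact hmul.1 (by rw [h0, mul_zero])
  have hr1o : P.ord (r 1) = -((Q - 2 - 1) * e) := by
    have h1 := P.ord_mul _ _ hA0 hr1
    rw [hmul.2, hAo] at h1
    linarith
  -- `r i`
  have hri : ∀ j : ℕ, j ≤ s → r (j + 1) ≠ 0 ∧
      P.ord (r (j + 1)) = -((Q - 2 - (q : ℤ) ^ j) * e) := by
    intro j
    induction j with
    | zero =>
      intro _
      refine ⟨hr1, ?_⟩
      rw [pow_zero]
      exact hr1o
    | succ j ih =>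
      intro hj
      obtain ⟨h1, h2⟩ := ih (by omega)
      have h3 := eC (j + 1 + 1) (by omega) (by omega)
      rw [show j + 1 + 1 - 1 = j + 1 from rfl] at h3
      have h4 : r (j + 1 + 1) ≠ 0 := by
        intro h0
        rw [h0, mul_zero] at h3
        exact pow_ne_zero _ h1 h3
      refine ⟨h4, ?_⟩
      have h5 := P.ord_mul _ _ hA0 h4
      rw [← h3, P.ord_pow h1, h2, hAo, ← ha] at h5
      rw [pow_succ, ← ha]
      linear_combination -h5
  refine ⟨?_, ?_, ?_, ?_⟩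
  · rw [hYpo, hQz, hte]
  · rw [hr0o, hQz, hte, ← ha]
    ring
  · intro i hi1 hi2
    obtain ⟨j, rfl⟩ : ∃ j, i = j + 1 := ⟨i - 1, by omega⟩
    rw [(hri j (by omega)).2, hQz, hte, Nat.add_sub_cancel]
    ring
  -- `ζ`
  obtain ⟨K, hK⟩ : ∃ K : ℕ, K = (q - 1) * (q ^ (s + 1) - 2) := ⟨_, rfl⟩
  have hKz : (K : ℤ) = (a - 1) * (Q - 2) := by
    rw [hK, Nat.cast_mul, hq1z, hQ2z]
  rw [← hK] at eD
  obtain ⟨hrs0, hrso⟩ := hri s le_rfl
  have hrq : P.Ge (r (s + 1) ^ q * (t ^ K)⁻¹) (2 * e) := by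
    refine Or.inr ?_
    rw [P.ord_mul _ _ (pow_ne_zero _ hrs0) (inv_ne_zero (pow_ne_zero _ ht)), P.ord_pow hrs0,
      P.ord_inv (pow_ne_zero _ ht), P.ord_pow ht, hrso, hte, hKz, ← hu, ← ha]
    apply le_of_eq
    linear_combination e * hQ
  obtain ⟨w, hw⟩ : ∃ w : L, w = 1 + -(r (s + 1) ^ q * (t ^ K)⁻¹) := ⟨_, rfl⟩
  have hw1 : P.Ge (w - 1) (2 * e) := by
    have e1 : w - 1 = -(r (s + 1) ^ q * (t ^ K)⁻¹) := by rw [hw]; ring
    rw [e1]
    exact P.ge_neg hrq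
  have hgw : (Yp / t ^ (q ^ (s + 1) - 2)) ^ (q - 1) = algebraMap k L 1 * w := by
    rw [map_one, one_mul, div_pow, ← pow_mul, mul_comm (q ^ (s + 1) - 2) (q - 1), ← hK, hw]
    have e1 : Yp ^ (q - 1) = t ^ K + -(r (s + 1) ^ q) := by
      linear_combination eD
    rw [e1]
    have e2 : t ^ K ≠ 0 := pow_ne_zero _ ht
    field_simp
  obtain ⟨γ, δ, hγ0, hγ1, hgδ, hδ, -⟩ := T54.root P f q hq hq2 (2 * e) (by omega)
    (Yp / t ^ (q ^ (s + 1) - 2)) w 1 one_ne_zero hgw hw1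
  refine ⟨γ, hγ1, ?_⟩
  have hγ' : algebraMap k L γ ≠ 0 := by
    rw [Ne, map_eq_zero_iff _ (algebraMap k L).injective]
    exact hγ0
  have e3 : Yp / (algebraMap k L γ * t ^ (q ^ (s + 1) - 2)) = 1 + δ := by
    rw [mul_comm, ← div_div, hgδ]
    field_simp
  rw [e3, hte, add_sub_cancel_left]
  exact P.ge_mono hδ (by omega)

end Pool.CND
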